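import Pool.Agent.Q17.RB.Stm3
import Pool.Agent.Q190.AM.LLX
import Pool.Agent.Q154.AM.Nwt
import Pool.Agent.Q261.RB.GCB
import Pool.Agent.Q66.RB.RatA

/-!
# Project RB, job GCW: Galois conjugates of blocks have the same numbers of Brauer characters and of
weights
-/

set_option autoImplicit false
set_option linter.unusedSectionVars false

open scoped Classical

noncomputable section

namespace Pool.Agent.Q53.RB

open Pool.Agent.H254R3.IN hiding NN
open Pool.Agent.Q17.WR
open Pool.Agent.Q17.AM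
open Pool.Agent.Q17.RB
open Pool.Agent.Q17.DC
open Pool.Agent.Q190.AM (rs lB_eq')
open Pool.Agent.Q261.RB (inv_exp irr_pow isConj_pow omega_pow)
open Pool.Agent.Q66.RB (gc_gc gc_one)
open Pool.Agent.Q154.AM (nwt nW_sum finite_wt)

section

variable {G : Type} [Group G] [Fintype G]

/-- the linear map of the power map -/
def pwL (k : ℕ) : (G → ℂ) →ₗ[ℂ] (G → ℂ) where
  toFun f := fun g => f (g ^ k)
  map_add' _ _ := rfl
  map_smul' _ _ := rfl

lemma rs_pw (p k : ℕ) (hk : Nat.Coprime k (Nat.card G)) (f : G → ℂ) :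
    rs p (pwL k f) = pwL k (rs p f) := by
  funext x
  have h1 : orderOf (x ^ k) = orderOf x := by
    refine Nat.Coprime.orderOf_pow ?_
    exact (Nat.Coprime.coprime_dvd_right (orderOf_dvd_natCard x) hk).symm
  change (if p ∣ orderOf x then 0 else f (x ^ k)) = if p ∣ orderOf (x ^ k) then 0 else f (x ^ k)
  rw [h1]

lemma pwL_inj (k : ℕ) (hk : Nat.Coprime k (Nat.card G)) :
    Function.Injective (pwL (G := G) k) := by
  obtain ⟨k', -, h1, h2⟩ := inv_exp k hk
  intro f f' h
  funext g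
  have h3 := congrFun h (g ^ k')
  change f ((g ^ k') ^ k) = f' ((g ^ k') ^ k) at h3
  rwa [h2] at h3

lemma lB_gc (p k : ℕ) (hk : Nat.Coprime k (Nat.card G)) (B : Set (G → ℂ)) :
    lB p (gc k B) = lB p B := by
  rw [lB_eq', lB_eq']
  have h1 : rs p '' gc k B = pwL k '' (rs p '' B) := by
    ext χ
    constructor
    · rintro ⟨_, ⟨θ, hθ, rfl⟩, rfl⟩
      exact ⟨rs p θ, ⟨θ, hθ, rfl⟩, (rs_pw p k hk θ).symm⟩
    · rintro ⟨_, ⟨θ, hθ, rfl⟩, rfl⟩
      exact ⟨pwL k θ, ⟨θ, hθ, rfl⟩, rs_pw p k hk θ⟩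
  rw [h1, ← Submodule.map_span]
  exact (LinearEquiv.finrank_eq (Submodule.equivMapOfInjective _ (pwL_inj k hk) _)).symm

lemma wt_gc (p : ℕ) (O : ValuationSubring ℂ) (k : ℕ) (hk : Nat.Coprime k (Nat.card G))
    (B : Set (G → ℂ)) (Q : Subgroup G) (φ : Subgroup.normalizer (Q : Set G) → ℂ)
    (h : IsWt p O B Q φ) : IsWt p O (gc k B) Q (fun x => φ (x ^ k)) := by
  have : Fintype (Subgroup.normalizer (Q : Set G)) := Fintype.ofFinite _
  have hkN : Nat.Coprime k (Nat.card (Subgroup.normalizer (Q : Set G))) :=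
    Nat.Coprime.coprime_dvd_right (Subgroup.card_subgroup_dvd_card _) hk
  obtain ⟨k', hk', h1, h2⟩ := inv_exp (G := G) k hk
  refine ⟨h.isp, irr_pow k hkN φ h.irr, fun x hx => ?_, ?_, ?_⟩
  · rw [one_pow]
    exact h.ker _ (by
      rw [Subgroup.coe_pow]
      exact Q.pow_mem hx k)
  · obtain ⟨n, hn, hn'⟩ := h.defect
    exact ⟨n, by rw [one_pow]; exact hn, hn'⟩
  · rintro χ ⟨χ', hχ', rfl⟩ x
    rw [omega_pow k k' h1 h2]
    have h3 := h.ind χ' hχ' (x ^ k)
    have h1N : ∀ y : Subgroup.normalizer (Q : Set G), (y ^ k) ^ k' = y := fun y =>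
      Subtype.ext (by
        push_cast
        exact h1 _)
    have h2N : ∀ y : Subgroup.normalizer (Q : Set G), (y ^ k') ^ k = y := fun y =>
      Subtype.ext (by
        push_cast
        exact h2 _)
    let e : {y : Subgroup.normalizer (Q : Set G) // IsConj x (y : G)} ≃
        {y : Subgroup.normalizer (Q : Set G) // IsConj (x ^ k) (y : G)} :=
      { toFun := fun y => ⟨y.1 ^ k, by
          push_cast
          exact isConj_pow k y.2⟩
        invFun := fun y => ⟨y.1 ^ k', by
          have h := isConj_pow k' y.2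
          rw [h1] at h
          push_cast
          exact h⟩
        left_inv := fun y => Subtype.ext (h1N _)
        right_inv := fun y => Subtype.ext (h2N _) }
    have h4 : (∑ᶠ y : {y : Subgroup.normalizer (Q : Set G) // IsConj x (y : G)},
        (fun g => φ (g ^ k)) (y : Subgroup.normalizer (Q : Set G)) / (fun g => φ (g ^ k)) 1)
        = ∑ᶠ y : {y : Subgroup.normalizer (Q : Set G) // IsConj (x ^ k) (y : G)},
          φ y / φ 1 := by
      rw [← finsum_comp_equiv e]
      refine finsum_congr fun y => ?_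
      simp only [one_pow]
      rfl
    rw [h4]
    exact h3

lemma nwt_gc_le (p : ℕ) (O : ValuationSubring ℂ) (k : ℕ) (hk : Nat.Coprime k (Nat.card G))
    (B : Set (G → ℂ)) (Q : Subgroup G) : nwt p O B Q ≤ nwt p O (gc k B) Q := by
  have : Fintype (Subgroup.normalizer (Q : Set G)) := Fintype.ofFinite _
  have hkN : Nat.Coprime k (Nat.card (Subgroup.normalizer (Q : Set G))) :=
    Nat.Coprime.coprime_dvd_right (Subgroup.card_subgroup_dvd_card _) hk
  obtain ⟨k', hk', h1, h2⟩ := inv_exp k hkN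
  unfold nwt
  refine Nat.card_le_card_of_injective
    (fun φ : {φ : Subgroup.normalizer (Q : Set G) → ℂ // IsWt p O B Q φ} =>
      (⟨fun x => φ.1 (x ^ k), wt_gc p O k hk B Q φ.1 φ.2⟩ :
        {φ : Subgroup.normalizer (Q : Set G) → ℂ // IsWt p O (gc k B) Q φ})) ?_
  intro φ φ' h
  apply Subtype.ext
  funext x
  have h3 := congrFun (congrArg Subtype.val h) (x ^ k')
  simp only [h2] at h3
  exact h3

lemma gc_inv (k k' : ℕ) (h1 : ∀ g : G, (g ^ k') ^ k = g) (B : Set (G → ℂ)) :
    gc k' (gc k B) = B := by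
  ext χ
  constructor
  · rintro ⟨_, ⟨θ, h, rfl⟩, rfl⟩
    simp only [h1]
    exact h
  · intro h
    exact ⟨fun g => χ (g ^ k), ⟨χ, h, rfl⟩, by simp only [h1]⟩

end

/-- **Job GCW.** -/
theorem t_GCW : S_GCB → S_GCW := by
  intro _ G _ _ p _ O _ k hk B _
  refine ⟨lB_gc p k hk B, ?_⟩
  have : Fintype (Subgroup G) := Fintype.ofFinite _
  obtain ⟨k', hk', h1, h2⟩ := inv_exp (G := G) k hk
  have h3 : ∀ Q : Subgroup G, nwt p O (gc k B) Q = nwt p O B Q := by
    intro Q
    refine le_antisymm ?_ (nwt_gc_le p O k hk B Q)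
    have h4 := nwt_gc_le p O k' hk' (gc k B) Q
    rwa [gc_inv k k' h2] at h4
  have h5 := nW_sum (p := p) (O := O) (B := gc k B)
  have h6 := nW_sum (p := p) (O := O) (B := B)
  simp only [h3] at h5
  rw [← h6] at h5
  exact Nat.eq_of_mul_eq_mul_left Nat.card_pos h5

end Pool.Agent.Q53.RB
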