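import Pool.Agent.Q17.RB.Stm3
import Pool.Agent.Q190.AM.LGX

/-!
# Project RB, job LFX: the number of Brauer characters of `FX β`
-/

set_option autoImplicit false
set_option linter.unusedSectionVars false

open scoped Classical

noncomputable section

namespace Pool.Agent.Q53.RB

open Pool.Agent.H254R3.IN hiding NN
open Pool.Agent.Q17.WR
open Pool.Agent.Q17.AM
open Pool.Agent.Q17.RB
open Pool.Agent.Q17.DC
open Pool.Agent.Q190.AM

section

variable {G A : Type} [Group G] [Group A] [Fintype A]

lemma dvd_baseW (p : ℕ) [Fact p.Prime] (x : Wr G A A) (hx : x.right = 1) :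
    p ∣ orderOf x ↔ ∃ ω, p ∣ orderOf (x.left ω) := by
  have h1 : x = SemidirectProduct.inl x.left := by
    apply SemidirectProduct.ext
    · simp
    · simp [hx]
  have h2 : orderOf x = orderOf x.left := by
    conv_lhs => rw [h1]
    exact orderOf_injective SemidirectProduct.inl SemidirectProduct.inl_injective _
  rw [h2]
  constructor
  · intro h
    by_contra hc
    push Not at hc
    have h3 : orderOf x.left ∣ ∏ ω, orderOf (x.left ω) := by
      rw [orderOf_dvd_iff_pow_eq_one]
      funext ω
      rw [Pi.pow_apply, Pi.one_apply, ← orderOf_dvd_iff_pow_eq_one]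
      exact Finset.dvd_prod_of_mem _ (Finset.mem_univ ω)
    obtain ⟨ω, -, h4⟩ := ((Fact.out : p.Prime).prime.dvd_finsetProd_iff _).1 (h.trans h3)
    exact hc ω h4
  · rintro ⟨ω, h⟩
    exact h.trans (orderOf_map_dvd (Pi.evalMonoidHom (fun _ => G) ω) x.left)

lemma rs_nca (p : ℕ) [Fact p.Prime] (f : A → G → ℂ) :
    rs p (nca f) = nca (fun ω => rs p (f ω)) := by
  funext x
  by_cases hx : x.right = 1
  · simp only [rs, nca, if_pos hx]
    by_cases h : p ∣ orderOf x
    · rw [if_pos h]
      obtain ⟨ω, hω⟩ := (dvd_baseW p x hx).1 h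
      symm
      apply Finset.sum_eq_zero
      intro a _
      rw [prf]
      apply Finset.prod_eq_zero (Finset.mem_univ ω)
      rw [rs, if_pos hω]
    · rw [if_neg h]
      have h2 : ∀ ω, ¬ p ∣ orderOf (x.left ω) := fun ω hω => h ((dvd_baseW p x hx).2 ⟨ω, hω⟩)
      refine Finset.sum_congr rfl fun a _ => ?_
      simp only [prf]
      refine Finset.prod_congr rfl fun ω _ => by rw [rs, if_neg (h2 ω)]
  · simp only [rs, nca, if_neg hx, ite_self]

end

/-- **Job LFX.** -/
theorem t_LFX : S_SECT → S_FXI → S_LFX := by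
  intro sect _ G A _ _ _ _ p _ O hp β hβ hinj
  rw [lB_eq']
  simp only [lB_eq']
  choose b hb hs hli using fun ω => exists_linearIndependent ℂ (rs p '' β ω)
  have hfin : ∀ ω, Finite (b ω) := fun ω => (hli ω).finite
  have hft : ∀ ω, Fintype (b ω) := fun ω => Fintype.ofFinite (b ω)
  -- the union of the bases is linearly independent
  set e : (Σ ω, b ω) → G → ℂ := fun k => (k.2 : G → ℂ) with he
  have hE : LinearIndependent ℂ e := by
    refine linearIndependent_iUnion_finite (f := fun ω (k : b ω) => (k : G → ℂ))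
      (fun ω => hli ω) ?_
    intro i t _ hit
    have h1 : Disjoint {x : {χ : G → ℂ | IsIrr χ} | (x : G → ℂ) ∈ β i}
        {x : {χ : G → ℂ | IsIrr χ} | ∃ j ∈ t, (x : G → ℂ) ∈ β j} := by
      rw [Set.disjoint_left]
      rintro x hx ⟨j, hj, hx'⟩
      have hne : β i ≠ β j := fun h => hit (by rw [hinj h]; exact hj)
      exact Pool.Agent.Q261.DC.block_disj (hβ i) (hβ j) hne _ hx' hx
    have h2 := (irr_li G).disjoint_span_image h1
    refine h2.mono ?_ ?_
    · rw [Subtype.range_coe, hs i]
      refine (rs_span_le sect hp (hβ i)).trans (Submodule.span_mono ?_)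
      intro χ hχ
      exact ⟨⟨χ, (hβ i).irr χ hχ⟩, hχ, rfl⟩
    · refine iSup₂_le fun j hj => ?_
      rw [Subtype.range_coe, hs j]
      refine (rs_span_le sect hp (hβ j)).trans (Submodule.span_mono ?_)
      intro χ hχ
      exact ⟨⟨χ, (hβ j).irr χ hχ⟩, ⟨j, hj, hχ⟩, rfl⟩
  obtain ⟨c, hc⟩ := exists_dual e hE
  set N : (∀ ω, b ω) → Wr G A A → ℂ := fun g => nca (fun ω => ((g ω : b ω) : G → ℂ)) with hN
  have hw : LinearIndependent ℂ N := by
    rw [Fintype.linearIndependent_iff]
    intro γ hγ j
    have h1 : ∀ m : A → G, ∑ g : ∀ ω, b ω, γ g *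
        ∑ a : A, prf (fun ω => e ⟨a * ω, g (a * ω)⟩) m = 0 := by
      intro m
      have h2 := congrFun hγ (⟨m, 1⟩ : Wr G A A)
      rw [Finset.sum_apply] at h2
      refine Eq.trans (Finset.sum_congr rfl fun g _ => ?_) h2
      rw [Pi.smul_apply, smul_eq_mul, hN]
      simp only [nca, if_true]
      rfl
    have h3 : ∑ m : A → G, prf (fun ω => c ⟨ω, j ω⟩) m * (∑ g : ∀ ω, b ω, γ g *
        ∑ a : A, prf (fun ω => e ⟨a * ω, g (a * ω)⟩) m) = 0 := by
      refine Finset.sum_eq_zero fun m _ => ?_
      rw [h1 m, mul_zero]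
    have h4 : ∑ g : ∀ ω, b ω, γ g * ∑ a : A, ∑ m : A → G,
        prf (fun ω => c ((fun ω' => (⟨ω', j ω'⟩ : Σ ω, b ω)) ω)) m *
          prf (fun ω => e ((fun ω' => (⟨a * ω', g (a * ω')⟩ : Σ ω, b ω)) ω)) m = 0 := by
      rw [← h3]
      simp only [Finset.mul_sum]
      symm
      rw [Finset.sum_comm]
      refine Finset.sum_congr rfl fun g _ => ?_
      rw [Finset.sum_comm]
      refine Finset.sum_congr rfl fun a _ => Finset.sum_congr rfl fun m _ => ?_
      ring
    have h5 : ∀ g : ∀ ω, b ω, ∑ a : A, ∑ m : A → G,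
        prf (fun ω => c ((fun ω' => (⟨ω', j ω'⟩ : Σ ω, b ω)) ω)) m *
          prf (fun ω => e ((fun ω' => (⟨a * ω', g (a * ω')⟩ : Σ ω, b ω)) ω)) m =
        if j = g then 1 else 0 := by
      intro g
      rw [Finset.sum_congr rfl fun a _ => dual_prod e c hc _ _]
      have h7 : ∀ ω, (⟨1 * ω, g (1 * ω)⟩ : Σ ω, b ω) = ⟨ω, g ω⟩ := fun ω => by rw [one_mul]
      rw [Finset.sum_eq_single 1]
      · by_cases hjg : j = g
        · rw [if_pos hjg, if_pos]
          subst hjg
          funext ω
          exact (h7 ω).symm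
        · rw [if_neg hjg, if_neg]
          intro h
          apply hjg
          funext ω
          have h6 := congrFun h ω
          rw [h7] at h6
          simpa using h6
      · intro a _ ha
        rw [if_neg]
        intro h
        have h6 := congrArg Sigma.fst (congrFun h 1)
        have h8 : (1 : A) = a * 1 := h6
        rw [mul_one] at h8
        exact ha h8.symm
      · intro h
        exact absurd (Finset.mem_univ _) h
    simp only [h5] at h4
    simpa using h4
  have hspan : Submodule.span ℂ (rs p '' FX β) = Submodule.span ℂ (Set.range N) := by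
    apply le_antisymm
    · rw [Submodule.span_le]
      rintro _ ⟨_, ⟨f, hf, rfl⟩, rfl⟩
      have e1 : ∀ ω, ∃ d : b ω → ℂ, ∀ g, rs p (f ω) g = ∑ k : b ω, d k * (k : G → ℂ) g := by
        intro ω
        have e2 : rs p (f ω) ∈ Submodule.span ℂ (Set.range (fun k : b ω => (k : G → ℂ))) := by
          rw [Subtype.range_coe, hs]
          exact Submodule.subset_span ⟨_, hf ω, rfl⟩
        obtain ⟨d, hd1⟩ := (Submodule.mem_span_range_iff_exists_fun ℂ).1 e2
        refine ⟨d, fun g => ?_⟩
        rw [← hd1, Finset.sum_apply]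
        rfl
      choose dd hdd using e1
      have key : ∀ (F : A → G → ℂ) (a : A) (m : A → G), prf (fun ω => F (a * ω)) m =
          ∏ ω, F ω (m (a⁻¹ * ω)) := by
        intro F a m
        rw [prf, ← Equiv.prod_comp (Equiv.mulLeft a) (fun ω => F ω (m (a⁻¹ * ω)))]
        refine Finset.prod_congr rfl fun ω _ => ?_
        simp only [Equiv.coe_mulLeft, inv_mul_cancel_left]
      have h8 : rs p (nca f) = ∑ g : ∀ ω, b ω, (∏ ω, dd ω (g ω)) • N g := by
        rw [rs_nca]
        funext x
        rw [Finset.sum_apply]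
        simp only [Pi.smul_apply, smul_eq_mul, hN, nca]
        split_ifs with hx
        · simp only [Finset.mul_sum]
          rw [Finset.sum_comm]
          refine Finset.sum_congr rfl fun a _ => ?_
          have k1 := key (fun ω => rs p (f ω)) a x.left
          have k2 : ∀ g : ∀ ω, b ω, prf (fun ω => ((g (a * ω) : b (a * ω)) : G → ℂ)) x.left =
              ∏ ω, ((g ω : b ω) : G → ℂ) (x.left (a⁻¹ * ω)) := fun g =>
            key (fun ω => ((g ω : b ω) : G → ℂ)) a x.left
          rw [k1]
          simp only [k2, hdd]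
          rw [Finset.prod_univ_sum, Fintype.piFinset_univ]
          refine Finset.sum_congr rfl fun g _ => ?_
          rw [Finset.prod_mul_distrib]
        · simp
      rw [SetLike.mem_coe, h8]
      exact Submodule.sum_mem _ fun k _ => Submodule.smul_mem _ _ (Submodule.subset_span ⟨k, rfl⟩)
    · rw [Submodule.span_le]
      rintro _ ⟨g, rfl⟩
      choose θ hθ h using fun ω => hb ω (g ω).2
      refine Submodule.subset_span ⟨nca θ, ⟨θ, hθ, rfl⟩, ?_⟩
      rw [rs_nca]
      exact congrArg nca (funext h)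
  rw [hspan, finrank_span_eq_card hw, Fintype.card_pi]
  refine Finset.prod_congr rfl fun ω _ => ?_
  rw [← hs ω]
  have h3 := finrank_span_eq_card (hli ω)
  rw [Subtype.range_coe] at h3
  exact h3.symm

end Pool.Agent.Q53.RB
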