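import Pool.Agent.Q17.RB.Stm3
import Pool.Agent.Q14.AM.DZB
import Pool.Agent.Q154.AM.WPQ

/-!
# Project RB, job NFA: the subgroups in weights of `FX β` are products
-/

set_option autoImplicit false
set_option linter.unusedSectionVars false

open scoped Classical

noncomputable section

namespace Pool.Agent.Q53.RB

open Pool.Agent.H254R3.IN hiding NN
open Pool.Agent.Y63.KR
open Pool.Agent.Q17.WR
open Pool.Agent.Q17.AM
open Pool.Agent.Q17.RB
open Pool.Agent.Q17.DC
open Pool.Agent.Q176.DC.DZV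
open Pool.Agent.Q154.AM (le_of_wt eq_of_norm)

/-- the subgroup of a weight centralises an element at which the block idempotent does not vanish -/
theorem wt_cent {G : Type} [Group G] [Fintype G] {p : ℕ} [Fact p.Prime] {O : ValuationSubring ℂ}
    (hpO : (p : ℂ) ∈ O.nonunits) {B : Set (G → ℂ)} (hB : IsBlock O B) {Q : Subgroup G}
    {φ : Subgroup.normalizer (Q : Set G) → ℂ} (hw : IsWt p O B Q φ) :
    ∃ x : G, blockCoeff B x ∉ O.nonunits ∧ ∀ q ∈ Q, Commute q x := by
  obtain ⟨θ, hθB⟩ : ∃ θ, θ ∈ B := by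
    obtain ⟨χ₀, hχ₀, rfl⟩ := hB
    exact ⟨χ₀, hχ₀, fun x => by rw [sub_self]; exact O.nonunits.zero_mem⟩
  have hθ := hB.irr θ hθB
  have hcl := blockCoeff_cl hB.irr
  have hbO := blockCoeff_mem hB
  have hcN : IsCl (fun y : Subgroup.normalizer (Q : Set G) => blockCoeff B (y : G)) :=
    fun g y => hcl (g : G) (y : G)
  have hcNO : ∀ y : Subgroup.normalizer (Q : Set G), blockCoeff B (y : G) ∈ O := fun y => hbO _
  have h1 := Om_blockCoeff hB.irr hθ
  rw [if_pos hθB] at h1
  have h2 := (red_Om hθ hcl hbO).2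
  rw [h1, red_one] at h2
  have h3 := (red_Om (O := O) hw.irr hcN hcNO).2
  have h4 : red O (Om (fun y : Subgroup.normalizer (Q : Set G) => blockCoeff B (y : G)) φ) = 1 := by
    rw [h2]
    have e1 : Om (fun y : Subgroup.normalizer (Q : Set G) => blockCoeff B (y : G)) φ =
        ∑ K : ConjClasses G, blockCoeff B (rep K) *
          ∑ᶠ y : {y : Subgroup.normalizer (Q : Set G) // IsConj (rep K) (y : G)}, φ y / φ 1 := by
      unfold Om
      rw [Finset.sum_div]
      rw [← Finset.sum_fiberwise Finset.univ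
        (fun y : Subgroup.normalizer (Q : Set G) => ConjClasses.mk (y : G))]
      refine Finset.sum_congr rfl fun K _ => ?_
      rw [finsum_eq_sum_of_fintype, Finset.mul_sum]
      rw [Finset.sum_subtype (Finset.univ.filter
          (fun y : Subgroup.normalizer (Q : Set G) => ConjClasses.mk (y : G) = K))
        (p := fun y : Subgroup.normalizer (Q : Set G) => IsConj (rep K) (y : G)) (by
          intro y
          rw [Finset.mem_filter, mk_eq_iff]
          exact ⟨fun h => h.2, fun h => ⟨Finset.mem_univ _, h⟩⟩)]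
      refine Finset.sum_congr rfl fun y _ => ?_
      rw [hcl.isConj y.2]
      ring
    have hm : ∀ K : ConjClasses G,
        (∑ᶠ y : {y : Subgroup.normalizer (Q : Set G) // IsConj (rep K) (y : G)}, φ y / φ 1) ∈ O ∧
        red O (omega θ (rep K)) = red O (∑ᶠ y : {y : Subgroup.normalizer (Q : Set G) //
          IsConj (rep K) (y : G)}, φ y / φ 1) :=
      fun K => red_congr (hθ.omega_mem O _) (hw.ind θ hθB (rep K))
    rw [e1, red_sum _ _ fun K _ => O.mul_mem _ _ (hbO _) (hm K).1]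
    refine Finset.sum_congr rfl fun K _ => ?_
    rw [red_mul (hbO _) (hm K).1, (hm K).2]
  rw [h3] at h4
  have h5 : ∃ K : ConjClasses (Subgroup.normalizer (Q : Set G)),
      red O (blockCoeff B ((rep K : Subgroup.normalizer (Q : Set G)) : G)) *
      red O (omega φ (rep K)) ≠ 0 := by
    by_contra hcon
    push Not at hcon
    rw [Finset.sum_eq_zero fun K _ => hcon K] at h4
    exact zero_ne_one h4
  obtain ⟨K, hK⟩ := h5
  have hK1 := left_ne_zero_of_mul hK
  have hK2 := right_ne_zero_of_mul hK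
  set D : Subgroup (Subgroup.normalizer (Q : Set G)) :=
    Q.subgroupOf (Subgroup.normalizer (Q : Set G)) with hD
  have hDn : D.Normal := by
    rw [hD]
    infer_instance
  have hDp : IsPGroup p D :=
    hw.isp.of_equiv (Subgroup.subgroupOfEquivOfLe Subgroup.le_normalizer).symm
  have hxc : rep K ∈ Subgroup.centralizer (D : Set (Subgroup.normalizer (Q : Set G))) := by
    by_contra hx
    exact hK2 (lam_zero hpO hDp hw.irr hx)
  refine ⟨(rep K : Subgroup.normalizer (Q : Set G)), fun h => hK1 (red_eq_zero h), ?_⟩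
  intro q hq
  have hqN : q ∈ Subgroup.normalizer (Q : Set G) := Subgroup.le_normalizer hq
  have h6 := Subgroup.mem_centralizer_iff.mp hxc ⟨q, hqN⟩ hq
  exact congrArg (fun z : Subgroup.normalizer (Q : Set G) => (z : G)) h6

section

variable {G A : Type} [Group G] [Group A]

lemma mul_leftW (x y : Wr G A A) (ω : A) :
    (x * y).left ω = x.left ω * y.left (x.right⁻¹ * ω) := by
  rw [SemidirectProduct.mul_left]; rfl

lemma inv_leftW (x : Wr G A A) (ω : A) :
    (x⁻¹).left ω = (x.left (x.right * ω))⁻¹ := by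
  rw [SemidirectProduct.inv_left]
  change (x.left⁻¹) ((x.right⁻¹)⁻¹ * ω) = _
  rw [inv_inv]; rfl

lemma conj_leftW (x y : Wr G A A) (hy : y.right = 1) (ω : A) :
    (x * y * x⁻¹).left ω = x.left ω * y.left (x.right⁻¹ * ω) * (x.left ω)⁻¹ := by
  rw [mul_leftW, mul_leftW, inv_leftW, SemidirectProduct.mul_right, hy, mul_one,
    mul_inv_cancel_left]

lemma conj_rightW (x y : Wr G A A) (hy : y.right = 1) : (x * y * x⁻¹).right = 1 := by
  rw [SemidirectProduct.mul_right, SemidirectProduct.mul_right, SemidirectProduct.inv_right, hy,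
    mul_one, mul_inv_cancel]

lemma conj_right_iffW (x y : Wr G A A) (h : (x * y * x⁻¹).right = 1) : y.right = 1 := by
  rw [SemidirectProduct.mul_right, SemidirectProduct.mul_right, SemidirectProduct.inv_right,
    mul_inv_eq_one] at h
  exact mul_eq_left.mp h

lemma base_powW {x : Wr G A A} (hx : x.right = 1) (n : ℕ) :
    (x ^ n).right = 1 ∧ ∀ ω, (x ^ n).left ω = (x.left ω) ^ n := by
  induction n with
  | zero => exact ⟨rfl, fun ω => by rw [pow_zero, pow_zero]; rfl⟩
  | succ n ih =>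
    rw [pow_succ]
    refine ⟨by rw [SemidirectProduct.mul_right, ih.1, hx, mul_one], fun ω => ?_⟩
    rw [mul_leftW, ih.1, inv_one, one_mul, ih.2, pow_succ]

/-- the projection of a subgroup of the base group to a factor -/
def prW (Q : Subgroup (Wr G A A)) (hQ : ∀ x ∈ Q, x.right = 1) (ω : A) : Subgroup G where
  carrier := {g | ∃ x ∈ Q, x.left ω = g}
  one_mem' := ⟨1, Q.one_mem, rfl⟩
  mul_mem' := by
    rintro _ _ ⟨x, hx, rfl⟩ ⟨y, hy, rfl⟩
    refine ⟨x * y, Q.mul_mem hx hy, ?_⟩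
    rw [mul_leftW, hQ x hx, inv_one, one_mul]
  inv_mem' := by
    rintro _ ⟨x, hx, rfl⟩
    refine ⟨x⁻¹, Q.inv_mem hx, ?_⟩
    rw [inv_leftW, hQ x hx, one_mul]

lemma mem_Pa {Q : A → Subgroup G} {x : Wr G A A} :
    x ∈ Pa Q ↔ x.right = 1 ∧ ∀ ω, x.left ω ∈ Q ω := Iff.rfl

/-- products of `p`-groups -/
lemma Pa_isp [Fintype A] {p : ℕ} {Q : A → Subgroup G} (h : ∀ ω, IsPGroup p (Q ω)) :
    IsPGroup p (Pa Q) := by
  rintro ⟨x, hx⟩
  rw [mem_Pa] at hx
  choose k hk using fun ω => h ω ⟨x.left ω, hx.2 ω⟩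
  refine ⟨∑ ω, k ω, Subtype.ext ?_⟩
  change x ^ p ^ (∑ ω, k ω) = 1
  obtain ⟨h1, h2⟩ := base_powW hx.1 (p ^ (∑ ω, k ω))
  refine SemidirectProduct.ext (funext fun ω => ?_) h1
  rw [h2]
  have h3 : (x.left ω) ^ p ^ k ω = 1 := congrArg Subtype.val (hk ω)
  have h4 : k ω ≤ ∑ ω, k ω := Finset.single_le_sum (fun _ _ => Nat.zero_le _) (Finset.mem_univ ω)
  obtain ⟨d, hd⟩ := Nat.exists_eq_add_of_le h4
  rw [hd, pow_add, pow_mul, h3, one_pow]
  rfl

end

/-- **Job NFA.** -/
theorem t_NFA : S_FXB → S_MMX → S_NFA := by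
  intro hFB hM G A _ _ _ _ p _ O hO β hβ hinj D hD Q φ hw
  have : Finite (Wr G A A) :=
    Finite.of_injective (fun x : Wr G A A => (x.left, x.right)) fun x y h =>
      SemidirectProduct.ext (congrArg Prod.fst h) (congrArg Prod.snd h)
  have : Fintype (Wr G A A) := Fintype.ofFinite _
  obtain ⟨hF1, hF2, -⟩ := hFB G A p O hO β hβ hinj D hD
  have hQ1 : ∀ x ∈ Q, x.right = 1 := by
    obtain ⟨y, hy1, hy2⟩ := wt_cent hO hF1 hw
    obtain ⟨g, hg⟩ := (((hM (Wr G A A) p O hO (FX β) hF1).2 (Da A D) hF2).1) y hy1 Q hw.isp hy2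
    intro x hx
    exact conj_right_iffW g x (hg x hx).1
  refine ⟨prW Q hQ1, ?_⟩
  have hle : Q ≤ Pa (prW Q hQ1) := fun x hx => ⟨hQ1 x hx, fun ω => ⟨x, hx, rfl⟩⟩
  have hisp : IsPGroup p (Pa (prW Q hQ1)) := by
    refine Pa_isp fun ω => ?_
    rintro ⟨g, x, hx, rfl⟩
    obtain ⟨k, hk⟩ := hw.isp ⟨x, hx⟩
    refine ⟨k, Subtype.ext ?_⟩
    have h1 : x ^ p ^ k = 1 := congrArg Subtype.val hk
    change (x.left ω) ^ p ^ k = 1
    rw [← (base_powW (hQ1 x hx) _).2, h1]
    rfl
  refine eq_of_norm hisp hle fun x hx hxN => ?_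
  have hnorm : ∀ t ∈ Subgroup.normalizer (Q : Set (Wr G A A)), ∀ y ∈ Pa (prW Q hQ1),
      t * y * t⁻¹ ∈ Pa (prW Q hQ1) := by
    intro t ht y hy
    rw [mem_Pa] at hy ⊢
    refine ⟨conj_rightW _ _ hy.1, fun ω => ?_⟩
    obtain ⟨z, hz, hz'⟩ := hy.2 (t.right⁻¹ * ω)
    refine ⟨t * z * t⁻¹, (Subgroup.mem_normalizer_iff.mp ht z).mp hz, ?_⟩
    rw [conj_leftW _ _ (hQ1 z hz), conj_leftW _ _ hy.1, hz']
  have h1 : ((Pa (prW Q hQ1)).subgroupOf (Subgroup.normalizer (Q : Set (Wr G A A)))) ≤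
      Q.subgroupOf (Subgroup.normalizer (Q : Set (Wr G A A))) := by
    refine le_of_wt (p := p) (φ := φ) ?_ ?_ ?_ ?_ hw.irr ?_ ?_
    · exact Subgroup.normal_in_normalizer
    · refine ⟨fun y hy t => ?_⟩
      rw [Subgroup.mem_subgroupOf] at hy ⊢
      exact hnorm t t.2 y hy
    · exact hisp.comap_of_injective _ (Subgroup.subtype_injective _)
    · intro y hy
      rw [Subgroup.mem_subgroupOf] at hy ⊢
      exact hle hy
    · intro y hy
      exact hw.ker y hy
    · obtain ⟨n, hn, hf⟩ := hw.defect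
      refine ⟨n, hn, ?_⟩
      rw [hf]
      have h2 : Nat.card (Q.subgroupOf (Subgroup.normalizer (Q : Set (Wr G A A)))) = Nat.card Q :=
        Nat.card_congr (Subgroup.subgroupOfEquivOfLe Subgroup.le_normalizer).toEquiv
      rw [h2]
  exact h1 (show (⟨x, hxN⟩ : Subgroup.normalizer (Q : Set (Wr G A A))) ∈ _ from hx)

end Pool.Agent.Q53.RB
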