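import Pool.Agent.Q53.RB.NFA
import Pool.Agent.Q154.AM.Nwt

/-!
# Project RB, job NFX: the number of the classes of weights of `FX β`
-/

set_option autoImplicit false
set_option linter.unusedSectionVars false

open scoped Classical

noncomputable section

namespace Pool.Agent.Q53.RB

open Pool.Agent.H254R3.IN hiding NN
open Pool.Agent.Q17.WR
open Pool.Agent.Q17.AM
open Pool.Agent.Q17.RB
open Pool.Agent.Q17.DC
open Pool.Agent.Q154.AM (nwt nW_sum finite_wt)

section

variable {G A : Type} [Group G] [Group A]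

/-- the element of the base group with one nontrivial component -/
def sgW (ω₀ : A) (g : G) : Wr G A A := ⟨fun ω => if ω = ω₀ then g else 1, 1⟩

lemma sgW_mem (Q : A → Subgroup G) (ω₀ : A) (g : G) : sgW ω₀ g ∈ Pa Q ↔ g ∈ Q ω₀ := by
  rw [mem_Pa]
  constructor
  · rintro ⟨-, h⟩
    have h1 := h ω₀
    simpa [sgW] using h1
  · intro h
    refine ⟨rfl, fun ω => ?_⟩
    change (if ω = ω₀ then g else 1) ∈ Q ω
    split_ifs with h1
    · rw [h1]
      exact h
    · exact (Q ω).one_mem

lemma Pa_inj : Function.Injective (Pa : (A → Subgroup G) → Subgroup (Wr G A A)) := by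
  intro Q Q' h
  funext ω
  ext g
  rw [← sgW_mem Q ω g, h, sgW_mem]

lemma isp_of_Pa {p : ℕ} (Q : A → Subgroup G) (h : IsPGroup p (Pa Q)) (ω : A) :
    IsPGroup p (Q ω) := by
  rintro ⟨g, hg⟩
  obtain ⟨k, hk⟩ := h ⟨sgW ω g, (sgW_mem Q ω g).2 hg⟩
  refine ⟨k, Subtype.ext ?_⟩
  have h1 : (sgW ω g : Wr G A A) ^ p ^ k = 1 := congrArg Subtype.val hk
  have h2 := (base_powW (x := sgW ω g) rfl (p ^ k)).2 ω
  rw [h1] at h2
  have h3 : (sgW ω g : Wr G A A).left ω = g := if_pos rfl
  rw [h3] at h2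
  exact h2.symm

end

lemma nwt_zero {G : Type} [Group G] {p : ℕ} {O : ValuationSubring ℂ} {B : Set (G → ℂ)}
    {Q : Subgroup G} (h : ¬ IsPGroup p Q) :
    Nat.card {φ : Subgroup.normalizer (Q : Set G) → ℂ // IsWt p O B Q φ} = 0 := by
  have : IsEmpty {φ : Subgroup.normalizer (Q : Set G) → ℂ // IsWt p O B Q φ} :=
    ⟨fun φ => h φ.2.isp⟩
  exact Nat.card_of_isEmpty

/-- **Job NFX.** -/
theorem t_NFX : S_NFA → S_NFB → S_NFX := by
  intro hNA hNB G A _ _ _ _ p _ O hp β hβ hinj D hD
  have : Finite (Wr G A A) :=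
    Finite.of_injective (fun x : Wr G A A => (x.left, x.right)) fun x y h =>
      SemidirectProduct.ext (congrArg Prod.fst h) (congrArg Prod.snd h)
  have : Fintype (Wr G A A) := Fintype.ofFinite _
  have : Fintype (Subgroup G) := Fintype.ofFinite _
  have : Fintype (Subgroup (Wr G A A)) := Fintype.ofFinite _
  have h1 := nW_sum (p := p) (O := O) (B := FX β)
  have h2 : ∑ P : Subgroup (Wr G A A), Nat.card (NN P) * nwt p O (FX β) P =
      ∑ Q' : A → Subgroup G, Nat.card (Subgroup.normalizer (Pa Q' : Set (Wr G A A))) *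
        nwq p O (FX β) (Pa Q') := by
    symm
    refine Fintype.sum_of_injective Pa Pa_inj _ _ ?_ fun _ => rfl
    intro P hP
    have h3 : nwt p O (FX β) P = 0 := by
      have : IsEmpty {φ : NN P → ℂ // IsWt p O (FX β) P φ} := by
        refine ⟨fun φ => hP ?_⟩
        obtain ⟨Q', hQ'⟩ := hNA G A p O hp β hβ hinj D hD P φ.1 φ.2
        exact ⟨Q', hQ'.symm⟩
      exact Nat.card_of_isEmpty
    rw [h3, mul_zero]
  have h4 : ∀ Q' : A → Subgroup G, Nat.card (Subgroup.normalizer (Pa Q' : Set (Wr G A A))) *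
        nwq p O (FX β) (Pa Q') =
      ∑ a : A, ∏ ω, (Nat.card (Subgroup.normalizer (Q' ω : Set G)) *
        nwq p O (β (a * ω)) (Q' ω)) := by
    intro Q'
    by_cases hQ : ∀ ω, IsPGroup p (Q' ω)
    · exact hNB G A p O hp β hβ hinj D hD Q' hQ
    · have h5 : nwq p O (FX β) (Pa Q') = 0 := nwt_zero fun h => hQ fun ω => isp_of_Pa Q' h ω
      rw [h5, mul_zero]
      symm
      refine Finset.sum_eq_zero fun a _ => ?_
      push Not at hQ
      obtain ⟨ω, hω⟩ := hQ
      refine Finset.prod_eq_zero (Finset.mem_univ ω) ?_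
      have h6 : nwq p O (β (a * ω)) (Q' ω) = 0 := nwt_zero hω
      rw [h6, mul_zero]
  have h7 : ∀ ω, ∑ P : Subgroup G, Nat.card (Subgroup.normalizer (P : Set G)) *
      nwq p O (β ω) P = Nat.card G * nW p O (β ω) := fun ω =>
    (nW_sum (p := p) (O := O) (B := β ω)).symm
  have h8 : ∑ Q' : A → Subgroup G, ∑ a : A, ∏ ω, (Nat.card (Subgroup.normalizer (Q' ω : Set G)) *
        nwq p O (β (a * ω)) (Q' ω)) =
      Fintype.card A * (Nat.card G ^ Fintype.card A * ∏ ω, nW p O (β ω)) := by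
    rw [Finset.sum_comm]
    have h9 : ∀ a : A, ∑ Q' : A → Subgroup G, ∏ ω, (Nat.card (Subgroup.normalizer (Q' ω : Set G)) *
        nwq p O (β (a * ω)) (Q' ω)) = Nat.card G ^ Fintype.card A * ∏ ω, nW p O (β ω) := by
      intro a
      have h10 := Finset.prod_univ_sum (fun _ : A => (Finset.univ : Finset (Subgroup G)))
        (fun ω P => Nat.card (Subgroup.normalizer (P : Set G)) * nwq p O (β (a * ω)) P)
      rw [Fintype.piFinset_univ] at h10
      rw [← h10]
      simp only [h7]
      rw [Finset.prod_mul_distrib, Finset.prod_const, Finset.card_univ]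
      congr 1
      exact Equiv.prod_comp (Equiv.mulLeft a) (fun ω => nW p O (β ω))
    rw [Finset.sum_congr rfl fun a _ => h9 a, Finset.sum_const, Finset.card_univ, smul_eq_mul]
  rw [h2, Finset.sum_congr rfl fun Q' _ => h4 Q', h8] at h1
  have h11 : Nat.card (Wr G A A) = Fintype.card A * Nat.card G ^ Fintype.card A := by
    rw [Nat.card_congr SemidirectProduct.equivProd, Nat.card_prod, Nat.card_fun,
      Nat.card_eq_fintype_card (α := A), mul_comm]
  rw [h11, ← mul_assoc] at h1
  refine Nat.eq_of_mul_eq_mul_left ?_ h1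
  rw [← h11]
  exact Nat.card_pos

end Pool.Agent.Q53.RB
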