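import Pool.Agent.Q17.RB.Stm3
import Pool.Agent.Q66.RB.Rat

/-!
# Project RB, job RWT: reduction to blocks stable under all Galois automorphisms (weights)
-/

set_option autoImplicit false
set_option linter.unusedSectionVars false

open scoped Classical

noncomputable section

namespace Pool.Agent.Q53.RB

open Pool.Agent.H254R3.IN hiding NN
open Pool.Agent.Q17.WR
open Pool.Agent.Q17.AM
open Pool.Agent.Q17.RB
open Pool.Agent.Q17.DC
open Pool.Agent.Q66.RB

/-- **Job RWT.** -/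
theorem t_RWT : S_FXI → S_FXB → S_GCB → S_MMX → S_LFX → S_NFX → S_GCW → S_RWT := by
  intro hI hFB hG hM hL hN hW G _ _ p _ O hp B hB
  obtain ⟨D, hD⟩ := (hM G p O hp B hB).1
  have hn0 : NeZero (Nat.card G) := ⟨Nat.card_pos.ne'⟩
  have hnG : ∀ g : G, g ^ Nat.card G = 1 := fun g => pow_card_eq_one'
  have hcop : ∀ u : (ZMod (Nat.card G))ˣ,
      Nat.Coprime (u : ZMod (Nat.card G)).val (Nat.card G) := ZMod.val_coe_unit_coprime
  obtain ⟨A, iA, fA, π, hπs, hπk⟩ : ∃ (A : Type) (_ : CommGroup A) (_ : Fintype A)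
      (π : (ZMod (Nat.card G))ˣ →* A), Function.Surjective π ∧
        ∀ u, π u = 1 ↔ u ∈ stb (Nat.card G) hnG B :=
    ⟨(ZMod (Nat.card G))ˣ ⧸ stb (Nat.card G) hnG B, inferInstance, Fintype.ofFinite _,
      QuotientGroup.mk' _, QuotientGroup.mk'_surjective _, fun u => QuotientGroup.eq_one_iff u⟩
  let k : A → ℕ := fun a => ((Function.surjInv hπs a : (ZMod (Nat.card G))ˣ) :
    ZMod (Nat.card G)).val
  let β : A → Set (G → ℂ) := fun a => gc (k a) B
  have hk : ∀ a, Nat.Coprime (k a) (Nat.card G) := fun a => hcop _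
  have hβu : ∀ u : (ZMod (Nat.card G))ˣ, β (π u) = gu u B := by
    intro u
    have h1 : π (Function.surjInv hπs (π u)) = π u := Function.surjInv_eq hπs (π u)
    have h2 : (Function.surjInv hπs (π u))⁻¹ * u ∈ stb (Nat.card G) hnG B := by
      rw [← hπk, map_mul, map_inv, h1, inv_mul_cancel]
    change gu (Function.surjInv hπs (π u)) B = gu u B
    conv_lhs => rw [← (show gu ((Function.surjInv hπs (π u))⁻¹ * u) B = B from h2)]
    rw [← gu_mul hnG, mul_inv_cancel_left]
  have hGB := fun u : (ZMod (Nat.card G))ˣ =>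
    (hG G p O hp (u : ZMod (Nat.card G)).val (hcop u)).2 B hB
  have hβB : ∀ a, IsBlock O (β a) := fun a => (hGB _).1
  have hβD : ∀ D : Subgroup G, IsDefectGroup p O B D → ∀ a, IsDefectGroup p O (β a) D :=
    fun D hD a => ((hGB _).2.1 D hD).1
  have hβinj : Function.Injective β := by
    intro a a' h
    obtain ⟨u, rfl⟩ := hπs a
    obtain ⟨v, rfl⟩ := hπs a'
    rw [hβu, hβu] at h
    have h1 : gu (v⁻¹ * u) B = B := by
      rw [gu_mul hnG, h, ← gu_mul hnG, inv_mul_cancel, gu_one hnG]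
    have h2 := (hπk (v⁻¹ * u)).mpr h1
    rw [map_mul, map_inv, inv_mul_eq_one] at h2
    exact h2.symm
  have hF1 := (hFB G A p O hp β hβB hβinj D (hβD D hD)).1
  -- powers
  have hpow : ∀ s : ℂ ≃+* ℂ, ∃ u : (ZMod (Nat.card G))ˣ,
      (∀ ω, ∀ χ ∈ β ω, ∀ g, s (χ g) = χ (g ^ (u : ZMod (Nat.card G)).val)) := by
    intro s
    obtain ⟨u, hu⟩ := exists_unit (n := Nat.card G) s
    refine ⟨u, fun ω χ hχ g => ?_⟩
    exact ((hG G p O hp (u : ZMod (Nat.card G)).val (hcop u)).2 (β ω) (hβB ω)).2.2 s hu χ hχ g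
  have hg1 : Gst (FX β) := FX_gst hnG π hπs B β hβu hpow
  refine ⟨A, iA, fA, β, ?_, hF1, hg1, ?_, ?_, ?_, ?_⟩
  · have h1 := hβu 1
    rw [map_one, gu_one hnG] at h1
    exact h1
  · rw [FX_ncard hI β (fun ω => (hβB ω).irr) fun ω ω' h =>
      block_disj (hβB ω) (hβB ω') fun h' => h (hβinj h')]
    rw [Finset.prod_congr rfl fun ω _ => gc_ncard (hk ω) B, Finset.prod_const, Finset.card_univ]
  · intro D' hD'
    exact (hFB G A p O hp β hβB hβinj D' (hβD D' hD')).2.1
  · rw [hL G A p O hp β hβB hβinj,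
      Finset.prod_congr rfl fun ω _ => (hW G p O hp (k ω) (hk ω) B hB).1, Finset.prod_const,
      Finset.card_univ]
  · rw [hN G A p O hp β hβB hβinj D (hβD D hD),
      Finset.prod_congr rfl fun ω _ => (hW G p O hp (k ω) (hk ω) B hB).2, Finset.prod_const,
      Finset.card_univ]

end Pool.Agent.Q53.RB
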